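import Pool.Agent.P.MP_f8f66f_co.Geo

/-!
Constant deficit in the geometric line-switching game: Q1 holds.
-/

namespace Pool.Agent.Results.MP_f8f66f_co.ConstDeficit

/-- `l` is a connecting line of `P`: the line through two distinct points of `P`. -/
def IsConnecting (P : Finset (ℝ × ℝ)) (l : AffineSubspace ℝ (ℝ × ℝ)) : Prop :=
  ∃ a ∈ P, ∃ b ∈ P, a ≠ b ∧ l = affineSpan ℝ {a, b}

/-- `w'` arises from `w` by switching the signs of the points on one connecting line. -/
def Switch (P : Finset (ℝ × ℝ)) (w w' : P → ℤˣ) : Prop :=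
  ∃ l, IsConnecting P l ∧
    ∀ p : P, ((p : ℝ × ℝ) ∈ l → w' p = -w p) ∧ ((p : ℝ × ℝ) ∉ l → w' p = w p)

/-- `F(P, w₀)`: the largest signed discrepancy of an assignment reachable from `w₀`. -/
noncomputable def bestFrom (P : Finset (ℝ × ℝ)) (w₀ : P → ℤˣ) : ℤ :=
  sSup {s | ∃ w, Relation.ReflTransGen (Switch P) w₀ w ∧ s = ∑ p, (w p : ℤ)}

/-- `F(P)`: the minimum of `F(P, w₀)` over all weight assignments `w₀`. -/
noncomputable def gameValue (P : Finset (ℝ × ℝ)) : ℤ := ⨅ w₀ : P → ℤˣ, bestFrom P w₀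

open Finset Pool.Agent.Lib.Additive Pool.Agent.Lib.Incidence Pool.Agent.P.MP_f8f66f_co

lemma unshear (t : ℝ) (z : ℝ × ℝ) : shear (-t) (shear t z) = z := by
  refine Prod.ext ?_ rfl
  simp [shear]

lemma mem_span_iff {t : ℝ} {l a b : ℝ × ℝ} (ha : On l (shear t a)) (hb : On l (shear t b))
    (hab : a ≠ b) (x : ℝ × ℝ) :
    x ∈ affineSpan ℝ ({a, b} : Set (ℝ × ℝ)) ↔ On l (shear t x) := by
  have hne : (shear t a).1 ≠ (shear t b).1 := fun e => hab (shear_inj t (ha.eq_of_fst hb e))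
  rw [mem_affineSpan_pair_iff_exists_lineMap_eq]
  unfold On shear at *
  simp only at *
  constructor
  · rintro ⟨r, rfl⟩
    simp only [AffineMap.lineMap_apply, vsub_eq_sub, vadd_eq_add, Prod.fst_add, Prod.snd_add,
      Prod.smul_fst, Prod.smul_snd, Prod.fst_sub, Prod.snd_sub, smul_eq_mul]
    linear_combination (1 - r) * ha + r * hb
  · intro hx
    have hd : (b.1 + t * b.2) - (a.1 + t * a.2) ≠ 0 := sub_ne_zero.2 hne.symm
    obtain ⟨r, hr⟩ : ∃ r : ℝ, r * ((b.1 + t * b.2) - (a.1 + t * a.2)) =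
        (x.1 + t * x.2) - (a.1 + t * a.2) := ⟨_, div_mul_cancel₀ _ hd⟩
    have h2 : r * (b.2 - a.2) + a.2 = x.2 := by
      linear_combination (1 - r) * ha + r * hb - hx + l.1 * hr
    refine ⟨r, Prod.ext ?_ ?_⟩
    · simp only [AffineMap.lineMap_apply, vsub_eq_sub, vadd_eq_add, Prod.fst_add,
        Prod.smul_fst, Prod.fst_sub, smul_eq_mul]
      linear_combination hr - t * h2
    · simp only [AffineMap.lineMap_apply, vsub_eq_sub, vadd_eq_add, Prod.snd_add,
        Prod.smul_snd, Prod.snd_sub, smul_eq_mul]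
      exact h2

/-- Flip the signs where `c` is non-zero. -/
def flip (P : Finset (ℝ × ℝ)) (c : ℝ × ℝ → ZMod 2) (w : P → ℤˣ) : P → ℤˣ :=
  fun p => if c p = 0 then w p else -w p

open Classical in
/-- Indicator vectors of the connecting lines. -/
def lineVecs (P : Finset (ℝ × ℝ)) : Set (ℝ × ℝ → ZMod 2) :=
  {u | ∃ l, IsConnecting P l ∧ u = fun x => if x ∈ P ∧ x ∈ l then 1 else 0}

lemma reach_flip (P : Finset (ℝ × ℝ)) {c : ℝ × ℝ → ZMod 2}
    (hc : c ∈ AddSubgroup.closure (lineVecs P)) :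
    ∀ w, Relation.ReflTransGen (Switch P) w (flip P c w) := by
  induction hc using AddSubgroup.closure_induction with
  | mem x hx =>
    obtain ⟨l, hl, rfl⟩ := hx
    intro w
    refine Relation.ReflTransGen.single ⟨l, hl, fun p => ⟨fun hp => ?_, fun hp => ?_⟩⟩
    · simp [flip, hp, p.2]
    · simp [flip, hp]
  | zero =>
    intro w
    have : flip P 0 w = w := by
      funext p
      simp [flip]
    rw [this]
  | add x y _ _ hx hy =>
    intro w
    have : flip P (x + y) w = flip P y (flip P x w) := by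
      funext p
      have z2 : ∀ a : ZMod 2, a = 0 ∨ a = 1 := by decide
      have z3 : (1 : ZMod 2) + 1 = 0 := by decide
      rcases z2 (x p) with h | h <;> rcases z2 (y p) with h' | h' <;> simp [flip, h, h', z3]
    rw [this]
    exact (hx w).trans (hy _)
  | neg x _ hx =>
    have : -x = x := by
      funext p
      simp
    rwa [this]

lemma support_of_sumLe {A : Set (ℝ × ℝ → ZMod 2)} (hA : ∀ a ∈ A, ∃ p, a = Pi.single p 1)
    {k : ℕ} {u : ℝ × ℝ → ZMod 2} (h : SumLe A k u) :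
    ∃ N : Finset (ℝ × ℝ), N.card ≤ k ∧ ∀ p, p ∉ N → u p = 0 := by
  classical
  obtain ⟨l, l1, l2, rfl⟩ := h
  induction l using Multiset.induction_on generalizing k with
  | empty => exact ⟨∅, by simp, by simp⟩
  | cons a l ih =>
    obtain ⟨N, n1, n2⟩ := ih (k := l.card) le_rfl fun x hx => l2 x (Multiset.mem_cons_of_mem hx)
    obtain ⟨q, rfl⟩ := hA a (l2 a (Multiset.mem_cons_self _ _))
    rw [Multiset.card_cons] at l1
    refine ⟨insert q N, (card_insert_le _ _).trans (by omega), fun p hp => ?_⟩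
    rw [mem_insert, not_or] at hp
    rw [Multiset.sum_cons, Pi.add_apply, n2 p hp.2, Pi.single_eq_of_ne hp.1, add_zero]

lemma reach_good : ∃ K : ℕ, ∀ P : Finset (ℝ × ℝ), ¬ Collinear ℝ (P : Set (ℝ × ℝ)) →
    ∀ w₀ : P → ℤˣ, ∃ w, Relation.ReflTransGen (Switch P) w₀ w ∧
      (P.card : ℤ) - 2 * K ≤ ∑ p, (w p : ℤ) := by
  classical
  obtain ⟨K, hK⟩ := core
  refine ⟨K, fun P hP w₀ => ?_⟩
  obtain ⟨t, ht, -⟩ := exists_shear P ∅
  let C := AddSubgroup.closure (lineVecs P)
  let f : (ℝ × ℝ → ZMod 2) →+ (ℝ × ℝ → ZMod 2) ⧸ C := QuotientAddGroup.mk' C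
  let e : ℝ × ℝ → (ℝ × ℝ → ZMod 2) := fun p => Pi.single p 1
  have hX : XInj (P.image (shear t)) := by
    intro v hv w hw hvw
    obtain ⟨v, hv', rfl⟩ := mem_image.1 hv
    obtain ⟨w, hw', rfl⟩ := mem_image.1 hw
    rw [ht v hv' w hw' hvw]
  have hN : NonCol (P.image (shear t)) := by
    intro l
    by_contra hc
    push Not at hc
    refine hP (collinear_iff_exists_forall_eq_smul_vadd _ |>.2
      ⟨shear (-t) (0, l.2), shear (-t) (1, l.1), fun p hp => ⟨(shear t p).1, ?_⟩⟩)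
    have := hc _ (mem_image_of_mem _ hp)
    unfold On shear at *
    simp only at this
    refine Prod.ext ?_ ?_
    · simp only [vadd_eq_add, Prod.fst_add, Prod.smul_fst, smul_eq_mul]
      linear_combination (-t) * this
    · simp only [vadd_eq_add, Prod.snd_add, Prod.smul_snd, smul_eq_mul]
      linear_combination this
  have h2 : ∀ x : (ℝ × ℝ → ZMod 2) ⧸ C, x + x = 0 := by
    intro x
    obtain ⟨y, rfl⟩ := QuotientAddGroup.mk'_surjective C x
    rw [← map_add]
    have : y + y = 0 := by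
      funext p
      exact CharTwo.add_self_eq_zero _
    rw [this, map_zero]
  have ind : ∀ S : Finset (ℝ × ℝ), ∑ x ∈ S, e x = fun y => if y ∈ S then 1 else 0 := by
    intro S
    funext y
    simp [e, Finset.sum_apply, Pi.single_apply]
  have hz : ZeroSum (P.image (shear t)) fun z => f (e (shear (-t) z)) := by
    intro l hl
    obtain ⟨a', ha, b', hb, hab⟩ := one_lt_card.1 hl
    obtain ⟨ha1, ha2⟩ := mem_pts.1 ha
    obtain ⟨hb1, hb2⟩ := mem_pts.1 hb
    obtain ⟨a, haP, rfl⟩ := mem_image.1 ha1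
    obtain ⟨b, hbP, rfl⟩ := mem_image.1 hb1
    have hab' : a ≠ b := fun h => hab (by rw [h])
    have e1 : pts (P.image (shear t)) l =
        (P.filter fun x => x ∈ affineSpan ℝ ({a, b} : Set (ℝ × ℝ))).image (shear t) := by
      ext z
      obtain ⟨z, rfl⟩ := shear_surj t z
      rw [mem_pts, (shear_inj t).mem_finset_image, (shear_inj t).mem_finset_image, mem_filter,
        mem_span_iff ha2 hb2 hab']
    rw [e1, sum_image fun x _ y _ h => shear_inj t h]
    simp only [unshear]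
    rw [← map_sum, ind]
    refine (QuotientAddGroup.eq_zero_iff _).2 (AddSubgroup.subset_closure
      ⟨_, ⟨a, haP, b, hbP, hab', rfl⟩, ?_⟩)
    funext y
    simp only [mem_filter]
  have him : (fun z => f (e (shear (-t) z))) '' (P.image (shear t) : Finset (ℝ × ℝ)) =
      f '' (e '' P) := by
    rw [coe_image, Set.image_image, Set.image_image]
    simp only [unshear]
  have hK' := hK _ hX hN _ h2 _ hz
  rw [him] at hK'
  let N0 : Finset (ℝ × ℝ) := (univ.filter fun p : P => w₀ p = -1).image Subtype.val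
  have mN0 : ∀ p : P, (p : ℝ × ℝ) ∈ N0 ↔ w₀ p = -1 := by
    intro p
    rw [Subtype.val_injective.mem_finset_image, mem_filter]
    simp
  have a1 : f (∑ x ∈ N0, e x) ∈ AddSubgroup.closure (f '' (e '' P)) := by
    rw [map_sum]
    refine AddSubgroup.sum_mem _ fun x hx => AddSubgroup.subset_closure ?_
    obtain ⟨p, -, rfl⟩ := mem_image.1 hx
    exact Set.mem_image_of_mem _ (Set.mem_image_of_mem _ p.2)
  obtain ⟨u, u1, u2⟩ := sumLe_lift f (hK' _ a1)
  have a2 : -u + ∑ x ∈ N0, e x ∈ C := QuotientAddGroup.eq.1 u2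
  obtain ⟨N, n1, n2⟩ := support_of_sumLe (by rintro _ ⟨p, -, rfl⟩; exact ⟨p, rfl⟩) u1
  refine ⟨_, reach_flip P a2 w₀, ?_⟩
  have a3 : ∀ p : P, (1 : ℤ) - 2 * (if (p : ℝ × ℝ) ∈ N then 1 else 0) ≤
      (flip P (-u + ∑ x ∈ N0, e x) w₀ p : ℤ) := by
    intro p
    split_ifs with c
    · rcases Int.units_eq_one_or (flip P (-u + ∑ x ∈ N0, e x) w₀ p) with h | h <;> simp [h]
    · have b1 := n2 p c
      rw [ind]
      simp only [flip, Pi.add_apply, Pi.neg_apply, b1, mN0]
      rcases Int.units_eq_one_or (w₀ p) with h | h <;> simp [h]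
  refine le_trans ?_ (sum_le_sum fun p _ => a3 p)
  rw [sum_sub_distrib, ← mul_sum, sum_boole]
  have a4 : (univ.filter fun p : P => (p : ℝ × ℝ) ∈ N).card ≤ N.card :=
    card_le_card_of_injOn Subtype.val (fun p hp => (mem_filter.1 hp).2)
      Subtype.val_injective.injOn
  have a5 : ((univ.filter fun p : P => (p : ℝ × ℝ) ∈ N).card : ℤ) ≤ K := by
    exact_mod_cast a4.trans n1
  simp only [sum_const, card_univ, Fintype.card_coe, nsmul_eq_mul, mul_one]
  linarith

theorem result : ∃ c : ℝ, ∀ P : Finset (ℝ × ℝ), ¬ Collinear ℝ (P : Set (ℝ × ℝ)) →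
    (P.card : ℝ) - c ≤ (gameValue P : ℝ) := by
  obtain ⟨K, hK⟩ := reach_good
  refine ⟨2 * K, fun P hP => ?_⟩
  have h : (P.card : ℤ) - 2 * K ≤ gameValue P := by
    refine le_ciInf fun w₀ => ?_
    obtain ⟨w, h1, h2⟩ := hK P hP w₀
    refine h2.trans (le_csSup ?_ ⟨w, h1, rfl⟩)
    refine (Set.finite_range fun w : P → ℤˣ => ∑ p, (w p : ℤ)).bddAbove.mono ?_
    rintro _ ⟨w, -, rfl⟩
    exact ⟨w, rfl⟩
  exact_mod_cast h

end Pool.Agent.Results.MP_f8f66f_co.ConstDeficit
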